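import Mathlib
import Pool.Agent.N892.BW.H1
import Pool.Agent.N892.BW.KER

/-!
# Truncations of the kernel of `T ^ n` to annuli of ratio `n ^ c`, even `p`, sharp constant

For every even `p = 2 m ≥ 4` the bound `(1/q)_n / (1/p)_n` of the question holds, up to a factor
`1 + o(1)` as `n → ∞`, for the operators whose kernel is the kernel of `T ^ n` times a cut-off function
of an annulus `r ≤ ‖x‖ ≤ r n ^ c`, on all of `L ^ p` (no angular symmetry).

Outline (files `Pool/Agent/N892/BW/*`).  On the dual side the plane is cut into small cells.  For a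
function living in one cell the kernel is, in inverted coordinates, a plane wave up to small errors, and
the sharp bound is Pitt's (Paley's) inequality with its best constant, which for even exponents follows
from the Riesz composition formula and a weighted inequality for convolution powers.  Different cells
are almost orthogonal after a local average in the target variable (the product of two kernels is a
Laplacian), and `q ≤ 2` allows to add the `q`-th powers.
-/

set_option autoImplicit false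

open MeasureTheory Filter Topology
open scoped ComplexConjugate

namespace Pool.Agent.Results.MP_dd244f_an.AnnularTruncationsSharp

/-- The `n`-th power of the Beurling transform of a Schwartz function: the Fourier multiplier with
symbol `(conj ξ / ξ) ^ n`, in the literal form of the frozen statement. -/
noncomputable def T (n : ℕ) (f : SchwartzMap ℂ ℂ) (z : ℂ) : ℂ :=
  ∫ ξ : ℂ,
    Complex.exp (2 * (Real.pi : ℂ) * Complex.I * ((z.re * ξ.re + z.im * ξ.im : ℝ) : ℂ)) *
      ((starRingEnd ℂ ξ / ξ) ^ n *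
        ∫ w : ℂ, Complex.exp (-(2 * (Real.pi : ℂ) * Complex.I *
          ((w.re * ξ.re + w.im * ξ.im : ℝ) : ℂ))) * f w)

/-- The kernel of `T ^ n`: `(-1) ^ n (n / π) conj(x) ^ (n - 1) / x ^ (n + 1)`. -/
noncomputable def kern (n : ℕ) (x : ℂ) : ℂ :=
  (-1) ^ n * ((n : ℂ) / (Real.pi : ℂ)) * (starRingEnd ℂ x) ^ (n - 1) / x ^ (n + 1)

/-- Cut-off functions of the annulus `r ≤ ‖x‖ ≤ s` with constant `B`: twice continuously
differentiable, values in `[0, 1]`, zero off the annulus, `‖Dψ‖ ‖x‖ ≤ B` and `‖D²ψ‖ ‖x‖² ≤ B`. -/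
def IsCutoff (B r s : ℝ) (ψ : ℂ → ℝ) : Prop :=
  ContDiff ℝ 2 ψ ∧ (∀ x, 0 ≤ ψ x ∧ ψ x ≤ 1) ∧ (∀ x, ψ x ≠ 0 → r ≤ ‖x‖ ∧ ‖x‖ ≤ s) ∧
  ∀ x, ‖fderiv ℝ ψ x‖ * ‖x‖ ≤ B ∧ ‖iteratedFDeriv ℝ 2 ψ x‖ * ‖x‖ ^ 2 ≤ B

/-- The constant `(1/q)_n / (1/p)_n` of the question. -/
noncomputable def K (n : ℕ) (p : ℝ) : ℝ :=
  ∏ j ∈ Finset.range n, ((1 - 1 / p + j) / (1 / p + j))

/-- (1) For `n ≥ 1` the function `kern n` is the kernel of `T ^ n` off the support.
(2) Let `p = 2 m ≥ 4` be even, `0 < c < m (m - 1) / ((2 m + 1) (3 m - 1))`, `B` real, `ε > 0`.  There is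
`n₀` such that for all `n ≥ n₀`, all `r > 0`, all cut-off functions `ψ` of the annulus
`r ≤ ‖x‖ ≤ r n ^ c` with constant `B` and all `f ∈ L ^ p`, the function
`w ↦ ∫ kern n (w - z) ψ (w - z) f z dz` (an absolutely convergent integral for every `w`) has `L ^ p` norm
at most `(1 + ε) (1/q)_n / (1/p)_n ‖f‖_p`. -/
theorem result :
    (∀ n : ℕ, 1 ≤ n → ∀ (f : SchwartzMap ℂ ℂ) (z : ℂ), z ∉ tsupport f →
      T n f z = ∫ w, kern n (z - w) * f w) ∧
    ∀ (m : ℕ) (c B ε : ℝ), 2 ≤ m → 0 < c →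
      c < (m : ℝ) * (m - 1) / ((2 * m + 1) * (3 * m - 1)) → 0 < ε →
      ∃ n₀ : ℕ, ∀ n : ℕ, n₀ ≤ n → ∀ (r : ℝ) (ψ : ℂ → ℝ), 0 < r → IsCutoff B r (r * (n : ℝ) ^ c) ψ →
      ∀ f : ℂ → ℂ, MemLp f (2 * m : ℕ) volume →
        (∀ w : ℂ, Integrable (fun z => kern n (w - z) * (ψ (w - z) : ℂ) * f z)) ∧
        eLpNorm (fun w => ∫ z, kern n (w - z) * (ψ (w - z) : ℂ) * f z) (2 * m : ℕ) volume ≤
          ENNReal.ofReal ((1 + ε) * K n (2 * m)) * eLpNorm f (2 * m : ℕ) volume :=
  ⟨Pool.Agent.N892.BW.KER.t, Pool.Agent.N892.BW.H1.t⟩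

end Pool.Agent.Results.MP_dd244f_an.AnnularTruncationsSharp
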