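import Mathlib
import Pool.Agent.N892.BW.ALL

/-!
# The bound `(1/q)_n / (1/p)_n` for `T ^ n` as `n → ∞`: asymptotically exact for every even `p`

For every even `p = 2 m ≥ 4` the norm of `T ^ n` on `L ^ p (ℂ)` is asymptotic, as `n → ∞`, to the
constant `(1/q)_n / (1/p)_n` of the question; for every real `p ≥ 2` the bound of the question holds
for large `n` up to the factor `exp (log (1 + 1 / ⌊p/2⌋)² / 8) ≤ 1.062` (which tends to `1` as
`p → ∞`) times `1 + ε`.

Outline (files `Pool/Agent/N892/BW/*`, assembled in `ALL.lean`).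

* Functions with spectrum in a narrow annulus `a ≤ ‖ξ‖ ≤ a n ^ (1/50)`: up to errors `O(n ^ (-N))` the
  operator `T ^ n` acts on them through its kernel cut off to an annulus of ratio `n ^ (1/20)`.  On the
  dual side the plane is cut into small cells; for a function living in one cell this kernel is, in
  inverted coordinates, a plane wave up to small errors, and the sharp bound is Pitt's (Paley's)
  inequality with its best constant, which for even exponents follows from the Riesz composition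
  formula and a weighted inequality for convolution powers.  Different cells are almost orthogonal
  after a local average in the target variable, and `q ≤ 2` allows to add the `q`-th powers.  This
  gives the sharp bound, even with `‖f‖_p` replaced by the norm of a local square average of `f`.
* Arbitrary functions: up to a part of small norm (pigeonholing, Littlewood-Paley inequalities) the
  spectrum of `f` lies in narrow annuli separated by gaps of ratio `n ^ τ`.  The `p`-th powers of the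
  norms of the images of the pieces can be added, since the interaction terms are smaller by a power of
  `n` (averages of `T ^ n f` over discs gain a power of `n`; maximal functions), and the sum of the
  `p`-th powers of the norms of the local square averages of the pieces of `f` is at most
  `(1 + o(1)) ‖f‖_p ^ p`.
* Real exponents: Riesz-Thorin between consecutive even exponents.
-/

set_option autoImplicit false

open MeasureTheory Filter Topology

namespace Pool.Agent.Results.MP_dd244f_an.AsymptoticallySharp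

/-- The `n`-th power of the Beurling transform of a Schwartz function: the Fourier multiplier with
symbol `(conj ξ / ξ) ^ n`, in the literal form of the frozen statement. -/
noncomputable def T (n : ℕ) (f : SchwartzMap ℂ ℂ) (z : ℂ) : ℂ :=
  ∫ ξ : ℂ,
    Complex.exp (2 * (Real.pi : ℂ) * Complex.I * ((z.re * ξ.re + z.im * ξ.im : ℝ) : ℂ)) *
      ((starRingEnd ℂ ξ / ξ) ^ n *
        ∫ w : ℂ, Complex.exp (-(2 * (Real.pi : ℂ) * Complex.I *
          ((w.re * ξ.re + w.im * ξ.im : ℝ) : ℂ))) * f w)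

/-- The constant `(1/q)_n / (1/p)_n` of the question. -/
noncomputable def K (n : ℕ) (p : ℝ) : ℝ :=
  ∏ j ∈ Finset.range n, ((1 - 1 / p + j) / (1 / p + j))

/-- `C` is an admissible constant for `T ^ n` on `L ^ p`: `‖T ^ n f‖_p ≤ C ‖f‖_p` for all Schwartz
functions `f`. -/
def Adm (n : ℕ) (p C : ℝ) : Prop :=
  0 ≤ C ∧ ∀ f : SchwartzMap ℂ ℂ, eLpNorm (T n f) (ENNReal.ofReal p) volume ≤
    ENNReal.ofReal C * eLpNorm (fun z : ℂ => f z) (ENNReal.ofReal p) volume

/-- The norm of `T ^ n` on `L ^ p`: the infimum of the admissible constants. -/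
noncomputable def N (n : ℕ) (p : ℝ) : ℝ := sInf {C | Adm n p C}

lemma K_pos {n : ℕ} {p : ℝ} (hp : 2 ≤ p) : 0 < K n p := by
  unfold K
  refine Finset.prod_pos fun j _ => ?_
  have h1 : (1 : ℝ) / p < 1 := by
    rw [div_lt_one (by linarith)]; linarith
  have h2 : (0 : ℝ) < 1 / p := by positivity
  have h3 : (0 : ℝ) ≤ (j : ℝ) := Nat.cast_nonneg j
  apply div_pos <;> linarith

lemma even (m : ℕ) (ε : ℝ) (hm : 2 ≤ m) (hε : 0 < ε) :
    ∃ n₀ : ℕ, ∀ n : ℕ, n₀ ≤ n → Adm n (2 * m) ((1 + ε) * K n (2 * m)) := by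
  obtain ⟨n₀, h⟩ := Pool.Agent.N892.BW.ALL.ful m ε hm hε
  have hm' : (2 : ℝ) ≤ 2 * m := by
    have : (2 : ℝ) ≤ m := by exact_mod_cast hm
    linarith
  exact ⟨n₀, fun n hn => ⟨mul_nonneg (by linarith) (K_pos hm').le, h n hn⟩⟩

lemma lower (n : ℕ) (p C : ℝ) (hn : 1 ≤ n) (hp : 2 ≤ p) (h : Adm n p C) : K n p ≤ C :=
  Pool.Agent.N892.BW.ALL.lwb n p C hn hp h.1 h.2

lemma N_ratio (m : ℕ) (hm : 2 ≤ m) :
    Tendsto (fun n : ℕ => N n (2 * m) / K n (2 * m)) atTop (𝓝 1) := by
  have hm' : (2 : ℝ) ≤ 2 * m := by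
    have : (2 : ℝ) ≤ m := by exact_mod_cast hm
    linarith
  rw [Metric.tendsto_atTop]
  intro δ hδ
  obtain ⟨n₀, h⟩ := even m (δ / 2) hm (by linarith)
  refine ⟨max n₀ 1, fun n hn => ?_⟩
  have h1 := h n ((le_max_left _ _).trans hn)
  have hn1 : 1 ≤ n := (le_max_right _ _).trans hn
  have hK := K_pos (n := n) hm'
  have h2 : N n (2 * m) ≤ (1 + δ / 2) * K n (2 * m) :=
    csInf_le ⟨0, fun C hC => hC.1⟩ h1
  have h3 : K n (2 * m) ≤ N n (2 * m) :=
    le_csInf ⟨_, h1⟩ fun C hC => lower n _ C hn1 hm' hC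
  rw [Real.dist_eq, abs_lt]
  constructor
  · have : 1 ≤ N n (2 * m) / K n (2 * m) := by rwa [le_div_iff₀ hK, one_mul]
    linarith
  · have : N n (2 * m) / K n (2 * m) ≤ 1 + δ / 2 := by rwa [div_le_iff₀ hK]
    linarith

lemma N_asym (m : ℕ) (hm : 2 ≤ m) :
    Tendsto (fun n : ℕ => N n (2 * m) / (n : ℝ) ^ (1 - 2 / (2 * m : ℝ))) atTop
      (𝓝 (Real.Gamma (1 / (2 * m)) / Real.Gamma (1 - 1 / (2 * m)))) := by
  have hm2 : (2 : ℝ) ≤ m := by exact_mod_cast hm
  have hm' : (2 : ℝ) ≤ 2 * m := by linarith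
  have hs0 : (0 : ℝ) < 1 / (2 * m) := by positivity
  have hs1 : (1 : ℝ) / (2 * m) < 1 := by
    rw [div_lt_one (by linarith)]; linarith
  have h1 := Pool.Agent.N892.BW.ALL.asr (1 / (2 * m)) hs0 hs1
  have h2 := (N_ratio m hm).div h1 one_ne_zero
  have h3 := h2.mul_const (Pool.Agent.N892.BW.Gs (1 / (2 * m)))
  have hG : 0 < Pool.Agent.N892.BW.Gs (1 / (2 * m)) := by
    unfold Pool.Agent.N892.BW.Gs
    exact div_pos (Real.Gamma_pos_of_pos hs0) (Real.Gamma_pos_of_pos (by linarith))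
  have e0 : (1 : ℝ) / 1 * Pool.Agent.N892.BW.Gs (1 / (2 * m)) =
      Real.Gamma (1 / (2 * m)) / Real.Gamma (1 - 1 / (2 * m)) := by
    rw [div_one, one_mul]; rfl
  rw [e0] at h3
  refine h3.congr' ?_
  filter_upwards [eventually_ge_atTop 1] with n hn
  have hn0 : (0 : ℝ) < n := by exact_mod_cast hn
  have hK := K_pos (n := n) hm'
  have e1 : Pool.Agent.N892.BW.Qn n (1 / (2 * m)) = K n (2 * m) := rfl
  have e2 : (1 : ℝ) - 2 * (1 / (2 * m)) = 1 - 2 / (2 * m : ℝ) := by ring
  have hpow : 0 < (n : ℝ) ^ (1 - 2 / (2 * m : ℝ)) := Real.rpow_pos_of_pos hn0 _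
  simp only [Pi.div_apply]
  rw [e1, e2]
  field_simp

/-- (1) For every even `p = 2 m ≥ 4` and `ε > 0` there is `n₀` such that for all `n ≥ n₀` the constant
`(1 + ε) (1/q)_n / (1/p)_n` is admissible for `T ^ n` on `L ^ p` (all Schwartz functions).
(2) For every real `p ≥ 2` and `ε > 0` there is `n₀` such that for all `n ≥ n₀` the constant
`(1 + ε) exp (log (1 + 1 / ⌊p/2⌋)² / 8) (1/q)_n / (1/p)_n` is admissible.
(3) For every `n ≥ 1` and real `p ≥ 2` no constant below `(1/q)_n / (1/p)_n` is admissible.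
(4) For every even `p = 2 m ≥ 4` the norm `N n p` of `T ^ n` satisfies `N n p / ((1/q)_n / (1/p)_n) → 1`
and `N n p / n ^ (1 - 2/p) → Γ(1/p) / Γ(1 - 1/p)` as `n → ∞`. -/
theorem result :
    (∀ (m : ℕ) (ε : ℝ), 2 ≤ m → 0 < ε → ∃ n₀ : ℕ, ∀ n : ℕ, n₀ ≤ n →
      Adm n (2 * m) ((1 + ε) * K n (2 * m))) ∧
    (∀ p ε : ℝ, 2 ≤ p → 0 < ε → ∃ n₀ : ℕ, ∀ n : ℕ, n₀ ≤ n →
      Adm n p ((1 + ε) * Real.exp (Real.log (1 + 1 / (⌊p / 2⌋₊ : ℝ)) ^ 2 / 8) * K n p)) ∧
    (∀ (n : ℕ) (p C : ℝ), 1 ≤ n → 2 ≤ p → Adm n p C → K n p ≤ C) ∧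
    (∀ m : ℕ, 2 ≤ m →
      Tendsto (fun n : ℕ => N n (2 * m) / K n (2 * m)) atTop (𝓝 1) ∧
      Tendsto (fun n : ℕ => N n (2 * m) / (n : ℝ) ^ (1 - 2 / (2 * m : ℝ))) atTop
        (𝓝 (Real.Gamma (1 / (2 * m)) / Real.Gamma (1 - 1 / (2 * m))))) := by
  refine ⟨even, fun p ε hp hε => ?_, lower, fun m hm => ⟨N_ratio m hm, N_asym m hm⟩⟩
  obtain ⟨n₀, h⟩ := Pool.Agent.N892.BW.ALL.rea p ε hp hε
  exact ⟨n₀, fun n hn => ⟨mul_nonneg (mul_nonneg (by linarith) (Real.exp_pos _).le) (K_pos hp).le,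
    h n hn⟩⟩

end Pool.Agent.Results.MP_dd244f_an.AsymptoticallySharp
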