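import Mathlib
import Pool.Agent.N892.BW.ALL
import Pool.Agent.N892.BW.GAA

/-!
# Near-extremal functions for `T ^ n`, even `p`, `n → ∞`

For every even `p = 2 m ≥ 4` and functions with spectrum in an annulus `a ≤ ‖ξ‖ ≤ b ≤ a n ^ (1/50)`
the sharp asymptotic bound for `‖T ^ n f‖_p` holds with the norm of the local square average of `f`
over distances `n ^ (89/100) / b` (the wave length is at least `1 / b`) in place of `‖f‖_p`.  So the
modulus of a near-extremal `f` is nearly constant at this scale.  On the other side the local square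
averages of `T ^ n f` over discs of radius `n ^ θ / a` grow only like `n ^ ((1 - θ + σ) (1 - 2/p))`.
-/

set_option autoImplicit false

open MeasureTheory ENNReal Filter Topology
open scoped ComplexConjugate ContDiff

namespace Pool.Agent.Results.MP_dd244f_an.NearExtremals

/-- The function with Fourier transform `h`. -/
noncomputable def F (h : ℂ → ℂ) (x : ℂ) : ℂ :=
  ∫ ξ : ℂ, Complex.exp (2 * (Real.pi : ℂ) * Complex.I * ((x.re * ξ.re + x.im * ξ.im : ℝ) : ℂ)) * h ξ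

/-- `T ^ n` of the function `F h` with Fourier transform `h`: the Fourier multiplier with symbol
`(conj ξ / ξ) ^ n`. -/
noncomputable def T (n : ℕ) (h : ℂ → ℂ) (x : ℂ) : ℂ := F (fun ξ => (conj ξ / ξ) ^ n * h ξ) x

/-- Smooth functions with support in the annulus `a ≤ ‖ξ‖ ≤ b`. -/
def Annulus (a b : ℝ) (h : ℂ → ℂ) : Prop := ContDiff ℝ ∞ h ∧ ∀ ξ, h ξ ≠ 0 → a ≤ ‖ξ‖ ∧ ‖ξ‖ ≤ b

/-- The norm in `L ^ (2 m)`. -/
noncomputable def norm (m : ℕ) (f : ℂ → ℂ) : ℝ≥0∞ := (∫⁻ x, ‖f x‖ₑ ^ (2 * m)) ^ (1 / (2 * (m : ℝ)))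

/-- The norm in `L ^ (2 m)` of the local square average `(∫ |f (x + y)|² χ (y / ρ) dy / ρ²) ^ (1/2)`. -/
noncomputable def locNorm (χ : ℂ → ℝ) (ρ : ℝ) (m : ℕ) (f : ℂ → ℂ) : ℝ≥0∞ :=
  (∫⁻ x, (∫⁻ y, ENNReal.ofReal ((ρ ^ 2)⁻¹ * χ (((ρ⁻¹ : ℝ) : ℂ) * y)) * ‖f (x + y)‖ₑ ^ 2) ^ m) ^
    (1 / (2 * (m : ℝ)))

/-- The norm in `L ^ (2 m)` of the square average over discs of radius `ρ`. -/
noncomputable def discNorm (ρ : ℝ) (m : ℕ) (f : ℂ → ℂ) : ℝ≥0∞ :=
  (∫⁻ x, ((volume (Metric.ball (0 : ℂ) ρ))⁻¹ * ∫⁻ u in Metric.ball (0 : ℂ) ρ, ‖f (x + u)‖ₑ ^ 2) ^ m) ^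
    (1 / (2 * (m : ℝ)))

/-- Densities of probability measures of class `C²` on the unit disc. -/
def Density (χ : ℂ → ℝ) : Prop :=
  ContDiff ℝ 2 χ ∧ (∀ y, 0 ≤ χ y) ∧ (∀ y, 1 < ‖y‖ → χ y = 0) ∧ ∫ y, χ y = 1

/-- `n ^ (1 - 2/p) Γ(1/p) / Γ(1 - 1/p)` with `p = 2 m`, asymptotically the constant of the question
and (`AsymptoticallySharp`) the norm of `T ^ n`. -/
noncomputable def A (m n : ℕ) : ℝ :=
  (n : ℝ) ^ (1 - 2 / (2 * (m : ℝ))) *
    (Real.Gamma (1 / (2 * (m : ℝ))) / Real.Gamma (1 - 1 / (2 * (m : ℝ))))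

lemma A_eq (m n : ℕ) (hm : 2 ≤ m) : A m n = Pool.Agent.N892.BW.AA m n := by
  have h : (m : ℝ) ≠ 0 := by positivity
  have e : (1 : ℝ) - 2 / (2 * m) = 1 - 1 / m := by field_simp
  unfold A Pool.Agent.N892.BW.AA Pool.Agent.N892.BW.GA
  rw [e]

lemma A_pos {m n : ℕ} (hm : 2 ≤ m) (hn : 1 ≤ n) : 0 < A m n := by
  have hm' : (2 : ℝ) ≤ m := by exact_mod_cast hm
  have hn' : (0 : ℝ) < n := by exact_mod_cast hn
  have h1 : (1 : ℝ) / (2 * m) < 1 := by
    rw [div_lt_one (by linarith)]; linarith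
  unfold A
  have := Real.Gamma_pos_of_pos (s := 1 / (2 * (m : ℝ))) (by positivity)
  have := Real.Gamma_pos_of_pos (s := 1 - 1 / (2 * (m : ℝ))) (by linarith)
  have := Real.rpow_pos_of_pos hn' (1 - 2 / (2 * (m : ℝ)))
  positivity

lemma A_large (m : ℕ) (hm : 2 ≤ m) (M : ℝ) : ∃ n₀ : ℕ, ∀ n : ℕ, n₀ ≤ n → M ≤ A m n := by
  have hm' : (2 : ℝ) ≤ m := by exact_mod_cast hm
  have h1 : (1 : ℝ) / (2 * m) < 1 := by
    rw [div_lt_one (by linarith)]; linarith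
  have hG : 0 < Real.Gamma (1 / (2 * (m : ℝ))) / Real.Gamma (1 - 1 / (2 * (m : ℝ))) := by
    have := Real.Gamma_pos_of_pos (s := 1 / (2 * (m : ℝ))) (by positivity)
    have := Real.Gamma_pos_of_pos (s := 1 - 1 / (2 * (m : ℝ))) (by linarith)
    positivity
  have he : 0 < (1 : ℝ) - 2 / (2 * m) := by
    rw [sub_pos, div_lt_one (by linarith)]; linarith
  have h2 : Tendsto (fun n : ℕ => A m n) atTop atTop := by
    unfold A
    exact ((tendsto_rpow_atTop he).comp tendsto_natCast_atTop_atTop).atTop_mul_const hG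
  obtain ⟨n₀, h⟩ := (h2.eventually_ge_atTop M).exists_forall_of_atTop
  exact ⟨n₀, fun n hn => h n hn⟩

lemma norm_fin (m : ℕ) (hm : 2 ≤ m) {a b : ℝ} (ha : 0 < a) {h : ℂ → ℂ} (hh : Annulus a b h) :
    norm m (F h) ≠ ⊤ := by
  have h0 : Pool.Agent.N892.BW.Bd 0 b h := ⟨hh.1, fun ξ hξ => ⟨ha.le.trans (hh.2 ξ hξ).1, (hh.2 ξ hξ).2⟩⟩
  have h1 := Pool.Agent.N892.BW.REV.nm_lt (by omega : 1 ≤ m)
    (Pool.Agent.N892.BW.ALL.bas b h h0).2.2.1
  unfold norm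
  exact ENNReal.rpow_ne_top_of_nonneg (by positivity) h1.ne

/-- There is a density `χ` on the unit disc such that the following holds.  Let `p = 2 m ≥ 4` and
`A m n = n ^ (1 - 2/p) Γ(1/p) / Γ(1 - 1/p)`.
(1) For `ε > 0` there is `n₀` such that for `n ≥ n₀`, `0 < a ≤ b ≤ a n ^ (1/50)` and all `f = F h` with
smooth spectrum in `a ≤ ‖ξ‖ ≤ b`: `‖T ^ n f‖_p ≤ (1 + ε) A m n ‖loc f‖_p + ‖f‖_p`, where `loc f` is the
local square average with density `χ` and scale `ρ = n ^ (89/100) / b`.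
(2) For these `f`, if `‖T ^ n f‖_p ≥ (1 - ε) A m n ‖f‖_p` then `‖loc f‖_p ≥ (1 - 3 ε) ‖f‖_p`.
(3) For `σ > 0` there is `C` such that for `n ≥ 1`, `0 < a ≤ b ≤ a n`, `1 / a ≤ ρ ≤ n ^ (1 + σ) / a` and
all `f = F h` with smooth spectrum in `a ≤ ‖ξ‖ ≤ b` the square average of `T ^ n f` over discs of
radius `ρ` has norm at most `C (n ^ (1 + σ) / (a ρ)) ^ (1 - 2/p) ‖f‖_p`. -/
theorem result : ∃ χ : ℂ → ℝ, Density χ ∧
    (∀ (m : ℕ) (ε : ℝ), 2 ≤ m → 0 < ε → ∃ n₀ : ℕ, ∀ (n : ℕ) (a b : ℝ) (h : ℂ → ℂ), n₀ ≤ n → 0 < a →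
      a ≤ b → b ≤ a * (n : ℝ) ^ (1 / 50 : ℝ) → Annulus a b h →
      norm m (T n h) ≤
        ENNReal.ofReal ((1 + ε) * A m n) * locNorm χ ((n : ℝ) ^ (89 / 100 : ℝ) / b) m (F h) +
          norm m (F h) ∧
      (ENNReal.ofReal ((1 - ε) * A m n) * norm m (F h) ≤ norm m (T n h) →
        ENNReal.ofReal (1 - 3 * ε) * norm m (F h) ≤
          locNorm χ ((n : ℝ) ^ (89 / 100 : ℝ) / b) m (F h))) ∧
    (∀ (m : ℕ) (σ : ℝ), 2 ≤ m → 0 < σ → ∃ C : ℝ, ∀ (n : ℕ) (a b ρ : ℝ) (h : ℂ → ℂ), 1 ≤ n → 0 < a →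
      a ≤ b → b ≤ a * n → 1 / a ≤ ρ → ρ ≤ (n : ℝ) ^ (1 + σ) / a → Annulus a b h →
      discNorm ρ m (T n h) ≤
        ENNReal.ofReal (C * ((n : ℝ) ^ (1 + σ) / (a * ρ)) ^ (1 - 2 / (2 * (m : ℝ)))) *
          norm m (F h)) := by
  obtain ⟨χ, hχ, hS⟩ := Pool.Agent.N892.BW.ALL.str
  refine ⟨χ, hχ, fun m ε hm hε => ?_, fun m σ hm hσ => ?_⟩
  · obtain ⟨n₁, h₁⟩ := hS m ε hm hε
    obtain ⟨n₂, h₂⟩ := A_large m hm (1 / ε)
    refine ⟨max (max n₁ n₂) 1, fun n a b h hn ha hab hbn hh => ?_⟩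
    have hn1 : n₁ ≤ n := ((le_max_left _ _).trans (le_max_left _ _)).trans hn
    have hn2 : n₂ ≤ n := ((le_max_right _ _).trans (le_max_left _ _)).trans hn
    have hn3 : 1 ≤ n := (le_max_right _ _).trans hn
    have key : norm m (T n h) ≤
        ENNReal.ofReal ((1 + ε) * A m n) * locNorm χ ((n : ℝ) ^ (89 / 100 : ℝ) / b) m (F h) +
          norm m (F h) := by
      rw [A_eq m n hm]
      exact h₁ n a b hn1 ha hab hbn h hh
    refine ⟨key, fun hlow => ?_⟩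
    have hA := A_pos hm hn3
    have hAe := h₂ n hn2
    have hfin := norm_fin m hm ha hh
    set Nf := norm m (F h) with hNf
    set Lf := locNorm χ ((n : ℝ) ^ (89 / 100 : ℝ) / b) m (F h) with hLf
    by_cases h3 : 1 - 3 * ε ≤ 0
    · rw [ENNReal.ofReal_of_nonpos h3, zero_mul]
      exact bot_le
    · push Not at h3
      by_cases hLt : Lf = ⊤
      · rw [hLt]; exact le_top
      have h4 := hlow.trans key
      have h5 : (1 - ε) * A m n * Nf.toReal ≤ (1 + ε) * A m n * Lf.toReal + Nf.toReal := by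
        have h6 := ENNReal.toReal_mono (by
          exact ENNReal.add_ne_top.2 ⟨ENNReal.mul_ne_top ENNReal.ofReal_ne_top hLt, hfin⟩) h4
        rw [ENNReal.toReal_add (ENNReal.mul_ne_top ENNReal.ofReal_ne_top hLt) hfin,
          ENNReal.toReal_mul, ENNReal.toReal_mul,
          ENNReal.toReal_ofReal (mul_nonneg (by linarith) hA.le),
          ENNReal.toReal_ofReal (mul_nonneg (by linarith) hA.le)] at h6
        exact h6
      have hN0 : 0 ≤ Nf.toReal := ENNReal.toReal_nonneg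
      have hL0 : 0 ≤ Lf.toReal := ENNReal.toReal_nonneg
      have h7 : (1 - 3 * ε) * Nf.toReal ≤ Lf.toReal := by
        have h8 : 1 ≤ ε * A m n := by
          have := (div_le_iff₀ hε).1 hAe
          linarith
        have h9 : Nf.toReal ≤ ε * A m n * Nf.toReal := by
          nlinarith
        have h10 : (1 - 2 * ε) * A m n * Nf.toReal ≤ (1 + ε) * A m n * Lf.toReal := by
          nlinarith
        have h11 : (1 - 2 * ε) * Nf.toReal ≤ (1 + ε) * Lf.toReal := by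
          have h12 : A m n * ((1 - 2 * ε) * Nf.toReal) ≤ A m n * ((1 + ε) * Lf.toReal) := by
            calc A m n * ((1 - 2 * ε) * Nf.toReal) = (1 - 2 * ε) * A m n * Nf.toReal := by ring
              _ ≤ (1 + ε) * A m n * Lf.toReal := h10
              _ = _ := by ring
          exact le_of_mul_le_mul_left h12 hA
        have h13 : (1 + ε) * ((1 - 3 * ε) * Nf.toReal) ≤ (1 + ε) * Lf.toReal := by
          have : (1 + ε) * (1 - 3 * ε) ≤ 1 - 2 * ε := by nlinarith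
          calc (1 + ε) * ((1 - 3 * ε) * Nf.toReal) = ((1 + ε) * (1 - 3 * ε)) * Nf.toReal := by ring
            _ ≤ (1 - 2 * ε) * Nf.toReal := mul_le_mul_of_nonneg_right this hN0
            _ ≤ _ := h11
        exact le_of_mul_le_mul_left h13 (by linarith)
      rw [← ENNReal.ofReal_toReal hfin, ← ENNReal.ofReal_toReal hLt,
        ← ENNReal.ofReal_mul h3.le]
      exact ENNReal.ofReal_le_ofReal h7
  · obtain ⟨C, hC0, hC⟩ := Pool.Agent.N892.BW.GAA.t Pool.Agent.N892.BW.ALL.bas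
      Pool.Agent.N892.BW.ALL.cnv Pool.Agent.N892.BW.ALL.plt Pool.Agent.N892.BW.ALL.hkd m σ hm hσ
    refine ⟨C ^ (1 / (2 * (m : ℝ))), fun n a b ρ h hn ha hab hbn hρ1 hρ2 hh => ?_⟩
    have h1 := hC n a b ρ h hn ha hab hbn hρ1 hρ2 hh
    have hm' : (2 : ℝ) ≤ m := by exact_mod_cast hm
    have hn' : (0 : ℝ) < n := by exact_mod_cast hn
    have hρ0 : 0 < ρ := lt_of_lt_of_le (by positivity) hρ1
    have hx : 0 < (n : ℝ) ^ (1 + σ) / (a * ρ) :=
      div_pos (Real.rpow_pos_of_pos hn' _) (by positivity)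
    unfold discNorm norm
    refine (ENNReal.rpow_le_rpow h1 (by positivity)).trans ?_
    rw [ENNReal.mul_rpow_of_nonneg _ _ (by positivity),
      ENNReal.ofReal_rpow_of_nonneg (mul_nonneg hC0 (pow_nonneg hx.le _)) (by positivity)]
    refine mul_le_mul' (ENNReal.ofReal_le_ofReal (le_of_eq ?_)) le_rfl
    rw [Real.mul_rpow hC0 (pow_nonneg hx.le _), ← Real.rpow_natCast, ← Real.rpow_mul hx.le]
    congr 2
    have : ((2 * m - 2 : ℕ) : ℝ) = 2 * m - 2 := by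
      rw [Nat.cast_sub (by omega)]; push_cast; ring
    rw [this]
    field_simp

end Pool.Agent.Results.MP_dd244f_an.NearExtremals
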